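import Pool.Agent.K3h46.HP.Stm6

/-! NC brick ROWS for helper46 (tensor powers of an object) -/

set_option autoImplicit false

open Finset

namespace Pool.Agent.K3h68.NC

open Pool.Agent.K3h46.NC

theorem prod_mul {R : Type} [Monoid R] {n : ℕ} (f g : Fin n → R)
    (h : ∀ i j, i ≠ j → Commute (f i) (g j)) :
    (List.ofFn f).prod * (List.ofFn g).prod = (List.ofFn fun i => f i * g i).prod := by
  induction n with
  | zero => simp
  | succ n ih =>
    rw [List.ofFn_succ, List.ofFn_succ, List.ofFn_succ, List.prod_cons, List.prod_cons,
      List.prod_cons, ← ih (fun i => f i.succ) (fun i => g i.succ) fun i j hij =>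
        h _ _ fun e => hij (Fin.succ_injective _ e)]
    have h1 : Commute (List.ofFn fun i : Fin n => f i.succ).prod (g 0) := by
      apply Commute.list_prod_left
      intro x hx
      rw [List.mem_ofFn] at hx
      obtain ⟨i, rfl⟩ := hx
      exact h _ _ (Fin.succ_ne_zero i)
    calc f 0 * (List.ofFn fun i : Fin n => f i.succ).prod *
          (g 0 * (List.ofFn fun i : Fin n => g i.succ).prod)
        = f 0 * ((List.ofFn fun i : Fin n => f i.succ).prod * g 0) *
          (List.ofFn fun i : Fin n => g i.succ).prod := by simp only [mul_assoc]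
      _ = f 0 * (g 0 * (List.ofFn fun i : Fin n => f i.succ).prod) *
          (List.ofFn fun i : Fin n => g i.succ).prod := by rw [h1.eq]
      _ = _ := by simp only [mul_assoc]

theorem prod_one {R : Type} [Monoid R] {n : ℕ} (f : Fin n → R) (u : Fin n)
    (h : ∀ i, i ≠ u → f i = 1) : (List.ofFn f).prod = f u := by
  induction n with
  | zero => exact u.elim0
  | succ n ih =>
    rw [List.ofFn_succ, List.prod_cons]
    by_cases hu : u = 0
    · subst hu
      rw [List.prod_eq_one, mul_one]
      intro x hx
      rw [List.mem_ofFn] at hx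
      obtain ⟨i, rfl⟩ := hx
      exact h _ (Fin.succ_ne_zero i)
    · obtain ⟨v, rfl⟩ := Fin.exists_succ_eq.2 hu
      rw [h 0 (Ne.symm hu), one_mul, ih (fun i => f i.succ) v fun i hi =>
        h _ fun e => hi (Fin.succ_injective _ e)]

theorem conj_prod {R : Type} [Monoid R] {n : ℕ} (s : R) (f g : Fin n → R)
    (h : ∀ i, s * f i = g i * s) : s * (List.ofFn f).prod = (List.ofFn g).prod * s := by
  induction n with
  | zero => simp
  | succ n ih =>
    rw [List.ofFn_succ, List.ofFn_succ, List.prod_cons, List.prod_cons, ← mul_assoc, h, mul_assoc,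
      ih (fun i => f i.succ) (fun i => g i.succ) fun i => h _, mul_assoc]

theorem cm (M : TensorPowers) {n : ℕ} {i j : Fin n} (h : i ≠ j) (x y : M.H 1) :
    Commute (M.emb (single i) x) (M.emb (single j) y) :=
  M.comm (single i) (single j) (fun _ _ => h) x y

theorem rows_mul (M : TensorPowers) (n : ℕ) (a b : Fin n → M.H 1) :
    M.rows a * M.rows b = M.rows (fun i => a i * b i) := by
  unfold TensorPowers.rows
  rw [prod_mul _ _ fun i j hij => cm M hij _ _]
  congr 1
  congr 1
  funext i
  rw [map_mul]

theorem rows_one (M : TensorPowers) (n : ℕ) (u : Fin n) (c : M.H 1) :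
    M.rows (Function.update (fun _ : Fin n => (1 : M.H 1)) u c) = M.emb (single u) c := by
  unfold TensorPowers.rows
  rw [prod_one _ u]
  · rw [Function.update_self]
  · intro i hi
    rw [Function.update_of_ne hi, map_one]

theorem t_Rows : StmRows := by
  intro M
  refine ⟨rows_mul M, ?_, ?_, ?_⟩
  · intro n a u c
    rw [← rows_one, rows_mul]
    congr 1
    funext i
    by_cases hi : i = u
    · subst hi
      rw [Function.update_self, Function.update_self]
    · rw [Function.update_of_ne hi, Function.update_of_ne hi, one_mul]
  · intro n a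
    unfold TensorPowers.rows
    rw [List.ofFn_succ', List.prod_concat, map_list_prod, List.map_ofFn]
    congr 1
    congr 1
    congr 1
    funext i
    rw [Function.comp_apply, M.emb_trans]
    congr 1
  · intro n σ w
    unfold TensorPowers.rows
    have h1 : ∀ i : Fin n, M.perm n σ * M.emb (single i) w =
        M.emb (single (σ i)) w * M.perm n σ := by
      intro i
      rw [M.perm_emb]
      congr 1
    rw [conj_prod _ _ (fun i => M.emb (single (σ i)) w) h1]
    congr 1
    refine List.Perm.prod_eq' (Equiv.Perm.ofFn_comp_perm σ fun i => M.emb (single i) w) ?_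
    rw [List.pairwise_ofFn]
    intro i j hij
    exact cm M (fun e => hij.ne (σ.injective e)) w w

end Pool.Agent.K3h68.NC
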